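import Pool.Agent.LAT.StmtsM

/-! # Squad LAT: row MIN (subgroups of small slope contain short vectors) -/

set_option autoImplicit false

namespace Pool.Agent.LAT.H84

open Matrix Pool.Agent.LAT

theorem gram_dot {m r : ℕ} (v : Fin r → Fin m → ℤ) (z : Fin r → ℤ) :
    (fun i => (z i : ℝ)) ⬝ᵥ ((gram v).map (Int.cast : ℤ → ℝ) *ᵥ fun i => (z i : ℝ)) =
      (((∑ i, z i • v i) ⬝ᵥ (∑ i, z i • v i) : ℤ) : ℝ) := by
  have h1 : (∑ i, z i • v i) ⬝ᵥ (∑ i, z i • v i) = z ⬝ᵥ (gram v *ᵥ z) := by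
    rw [sum_dotProduct]
    refine Finset.sum_congr rfl fun i _ => ?_
    rw [smul_dotProduct, dotProduct_sum, smul_eq_mul]
    congr 1
    refine Finset.sum_congr rfl fun j _ => ?_
    rw [dotProduct_smul, smul_eq_mul, mul_comm]
    rfl
  rw [h1]
  simp only [dotProduct, mulVec, Matrix.map_apply, Int.cast_sum, Int.cast_mul]

theorem gram_posDef {m r : ℕ} (v : Fin r → Fin m → ℤ) (h : (gram v).det ≠ 0) :
    ((gram v).map (Int.cast : ℤ → ℝ)).PosDef := by
  let V : Matrix (Fin r) (Fin m) ℝ := Matrix.of fun i j => ((v i j : ℤ) : ℝ)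
  have h1 : (gram v).map (Int.cast : ℤ → ℝ) = V * Vᴴ := by
    ext i j
    simp only [gram, Matrix.map_apply, Matrix.of_apply, Matrix.mul_apply, conjTranspose_apply, V,
      dotProduct, Int.cast_sum, Int.cast_mul, star_trivial]
  have h2 : ((gram v).map (Int.cast : ℤ → ℝ)).PosSemidef := by
    rw [h1]
    exact posSemidef_self_mul_conjTranspose V
  rw [h2.posDef_iff_isUnit, isUnit_iff_isUnit_det, isUnit_iff_ne_zero]
  have h3 : ((gram v).map (Int.cast : ℤ → ℝ)).det = (((gram v).det : ℤ) : ℝ) :=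
    ((Int.castRingHom ℝ).map_det (gram v)).symm
  rw [h3]
  exact Int.cast_ne_zero.mpr h

theorem min (hMNK : MnkStmt) (hPOS : PosStmt) : MinStmt := by
  intro m L D M hM
  obtain ⟨hbot, -, hgd⟩ := hM
  have hr : 0 < rk M := by
    rw [rk, Module.finrank_pos_iff]
    exact (Submodule.nontrivial_iff_ne_bot).mpr hbot
  set b := Module.finBasis ℤ M with hb
  set v : Fin (Module.finrank ℤ M) → Fin m → ℤ := fun i => ((b i : M) : Fin m → ℤ) with hv
  have hdet : (gram v).det = gd M := rfl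
  have hge : 1 ≤ gd M := hPOS.2.1 m M
  have hpd := gram_posDef v (by rw [hdet]; omega)
  obtain ⟨z, hz, hle⟩ := hMNK (Module.finrank ℤ M) _ hr hpd
  have hdet' : ((gram v).map (Int.cast : ℤ → ℝ)).det = ((gd M : ℤ) : ℝ) :=
    ((Int.castRingHom ℝ).map_det (gram v)).symm
  rw [gram_dot v z, hdet'] at hle
  have hw : (∑ i, z i • v i) = ((∑ i, z i • b i : M) : Fin m → ℤ) := by
    simp only [hv, Submodule.coe_sum, Submodule.coe_smul]
  refine ⟨∑ i, z i • v i, ?_, ?_, ?_⟩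
  · rw [hw]
    exact Subtype.prop _
  · intro h0
    apply hz
    have h1 : (∑ i, z i • b i : M) = 0 := by
      apply Subtype.ext
      rw [← hw, h0]
      rfl
    have h2 := Fintype.linearIndependent_iff.mp b.linearIndependent z h1
    funext i
    exact h2 i
  · set W : ℤ := (∑ i, z i • v i) ⬝ᵥ (∑ i, z i • v i) with hW
    have hW0 : 0 ≤ W := by
      rw [hW]
      exact Finset.sum_nonneg fun i _ => mul_self_nonneg _
    have h1 : ((gd M : ℤ) : ℝ) ≤ (D : ℝ) ^ Module.finrank ℤ M := by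
      have : ((gd M : ℤ) : ℝ) ≤ (((D : ℤ) ^ rk M : ℤ) : ℝ) := Int.cast_le.mpr hgd
      simpa [rk] using this
    have hr0 : (0 : ℝ) ≤ (Module.finrank ℤ M : ℝ) := Nat.cast_nonneg _
    have h2 : ((W : ℤ) : ℝ) ^ Module.finrank ℤ M ≤
        ((Module.finrank ℤ M : ℝ) * (D : ℝ)) ^ Module.finrank ℤ M := by
      rw [mul_pow]
      exact hle.trans (mul_le_mul_of_nonneg_left h1 (pow_nonneg hr0 _))
    have h3 : ((W : ℤ) : ℝ) ≤ (Module.finrank ℤ M : ℝ) * (D : ℝ) :=
      (pow_le_pow_iff_left₀ (Int.cast_nonneg hW0) (mul_nonneg hr0 (Nat.cast_nonneg D))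
        (ne_of_gt hr)).mp h2
    have h4 : ((W : ℤ) : ℝ) ≤ (((rk M : ℤ) * (D : ℤ) : ℤ) : ℝ) := by
      push_cast
      exact h3
    exact Int.cast_le.mp h4

end Pool.Agent.LAT.H84
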